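import Pool.Agent.V11219.TowMain

/-!
# The algebraic Sato–Tate conjecture: products with semistable curves, comparison of ranks

Let `W` be a Weil cohomology theory with algebraically closed coefficients (`l`-adic cohomology with
coefficients in the algebraic closure of `ℚ_l`, which is singular cohomology with extended
coefficients) on a class of smooth proper varieties, and let `Γ` be a group which acts on the
cohomology of the varieties `X_i`, `Y_b` and `Z` with the formal properties of the Galois group of a number
field `F` (`χ` is the action on the Tate twists).

Let `D₀` be **arbitrary** groups `D₀(A)` of cohomology classes, for the varieties `A`. Let `D = generated D₀` be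
the smallest system of groups `D(A)` of classes which contain the `D₀(A)` and the classes of algebraic
cycles and are stable under products, pull-backs and push-forwards. The statement
`TateIn χ (spanned D) A` says that the Tate classes of `A` (classes on which a subgroup of finite index of
`Γ` acts by a power of `χ`) are combinations of elements of `D(A)`.

Application: let `D₀(A)` be groups of classes in the singular cohomology with rational coefficients. Then
the groups `D(A)` are contained in the singular cohomology with rational coefficients and **do not
depend on** `l`. Suppose the algebraic Sato–Tate conjecture holds for an abelian variety `B` and the
Jacobians of the curves `Y_b`, more precisely for their product, with the `ℚ`-group `G`; let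
`D₀` be the spaces of the invariants of the identity component of `G` in the cohomology (with Tate twists)
of the products of powers of `B` and the `Y_b`, and `D₀(A) = 0` for the other `A`. Then the Tate classes of the
`Z₁` are spanned by `D₀(Z₁)`, and the theorem says that the Tate classes of all the varieties which are
dominated by the products `T` are spanned by the elements of `D`, which are rational and independent of
`l`. The monodromy groups of the abelian varieties which are quotients of products of `B` with
Jacobians of the `X_i` and `Y_b` are reductive, so their identity components are determined by these
invariants in the cohomology of the powers; so these also have a common `ℚ`-form for all `l`.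

All varieties `X_i` (`i` in a finite set) and `Y_b` (`b` in a finite set) have odd dimension, numerical
and homological equivalence coincide for them (for example curves, hypersurfaces, complete
intersections), and their transcendental cohomology `T(X_i)`, `T(Y_b)` (the orthogonal complement of the
algebraic classes) is concentrated in the middle degree; the `Y_b` have the same dimension, the
`T(X_i)` are irreducible under all subgroups of finite index and no two of them are isomorphic up to
scalars. **Nothing else is assumed on the `Y_b`**: they may be arbitrary curves, for instance with
arbitrary endomorphisms of the Jacobians. Nothing at all is assumed on `Z`.

Let `N` be the set of the `g ∈ Γ` with `χ(g) = 1` which act trivially on the cohomology of `Z` and with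
`(g - 1) ^ 2 = 0` on all `T(X_j)` and all `T(Y_b)` (inertia at the places `v` at which `Z` has good
reduction and the `X_j`, `Y_b` are curves with stable reduction, or hypersurfaces of odd dimension whose
reduction has ordinary double points; **all** of them may have bad reduction at `v`). Assume for
every `i`:

* **(small defects)** some `g ∈ N` has defects on `T(X_i)` without a common prime factor, or the defect
  two; here the defects of `g` are the rank of `g - 1` on `T(X_i)` and the multiplicities of the nonzero
  eigenvalues of `(g - 1) (g' - 1)` on `T(X_i)`, for `g' ∈ N`. (Or: the conjugates of some `g ∈ N` act
  irreducibly on `T(X_i)` and the defects of all elements of `N` have no common prime factor.)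
* **(larger rank)** for some `g ∈ N` the rank of `g - 1` on `T(X_i)` is larger than the sum of the
  ranks of `g - 1` on the `T(Y_b)`.

Let `Z₁` be a product of `Z` with arbitrary powers of the `Y_b`, and `T` a product of `Z₁` with arbitrary
powers of the `X_i`. Then the following are **equivalent**: the Tate classes of all varieties dominated by
`T` are spanned by elements of `D`; the Tate classes of `Z₁` are spanned by elements of `D`.

Proof. The spaces spanned by the groups `D(A)` are a system of spaces of classes which contains the
algebraic classes and is stable under products, pull-backs and push-forwards. By the theory of extremal
elements of Lie algebras, Goursat's lemma and the comparison of ranks (see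
`MP_3703a7_ag.SemistableProducts`) and the first fundamental theorem a Tate class on the product of a
power of `X_i` with `A` is a combination of products of algebraic classes of the power with Tate
classes of `A`. If `x` is a Tate class of `B` and `g : T → B` is dominant, then `g^* x` is a Tate class of
`T`, and `x = g_*(a g^* x)` for an algebraic class `a`.
-/

universe u

namespace Pool.Agent.Results.MP_7a3e68_ag.GeneratedClasses

open Pool.Agent.H914 Pool.Agent.H281R3.HT Pool.Agent.TH125.Gal Pool.Agent.V11219.Min
  Pool.Agent.V11219.Cls Pool.Agent.V11219.Dm

/-- **Tate classes spanned by the elements of a generated system of groups of classes.** -/
theorem result {k : Type u} [Field k] {𝒱 : VarClass k} {ops : CycleOps 𝒱}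
    (W : WeilCohomology.{u, 0} ops) [IsAlgClosed W.K] {Γ : Type} [Group Γ] (χ : CharOf W Γ)
    (D₀ : ClassGroups W) {ι β : Type} [Finite ι] [Fintype β] (X : ι → GVar W Γ)
    (Y : β → GVar W Γ) (d : ℕ) (Z : GVar W Γ) (h : FamilyOver χ X Y d Z) (S' : Set β)
    (Z₁ : GVar W Γ) (hZ : Tow Y Z S' Z₁) (S : Set ι) (T : GVar W Γ) (hT : Tow X Z₁ S T) :
    AllDominated χ (spanned (generated D₀)) T ↔ TateIn χ (spanned (generated D₀)) Z₁ :=
  all_over (groupSystem_generated D₀).classSystem h hZ hT

end Pool.Agent.Results.MP_7a3e68_ag.GeneratedClasses
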